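import Mathlib
import Pool.Agent.Lib.MP_099f24_an.GA.Defs

/-!
# The local structure (regular point, tip, triple point) only depends on the set near the point
-/

set_option autoImplicit false

namespace Pool.Agent.MP099f24

open MeasureTheory Filter Topology Set Metric
open scoped ENNReal ContDiff

theorem mf_reg_congr {K K' U : Set ℂ} (hU : IsOpen U) (hKK : ∀ z ∈ U, (z ∈ K' ↔ z ∈ K)) {p : ℂ}
    (hp : p ∈ U) (h : IsRegPt K p) : IsRegPt K' p := by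
  obtain ⟨e, r, f, he, hr, hf, hf0, hK⟩ := h
  obtain ⟨ε, hε, hb⟩ := Metric.isOpen_iff.1 hU p hp
  have hr' : 0 < min r (ε / 2) := by positivity
  refine ⟨e, min r (ε / 2), f, he, hr', hf.mono ?_, hf0, ?_⟩
  · exact Ioo_subset_Ioo (neg_le_neg (min_le_left _ _)) (min_le_left _ _)
  · intro s t hs ht
    have hs1 := lt_of_lt_of_le hs (min_le_left _ _)
    have ht1 := lt_of_lt_of_le ht (min_le_left _ _)
    have hs2 := lt_of_lt_of_le hs (min_le_right _ _)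
    have ht2 := lt_of_lt_of_le ht (min_le_right _ _)
    rw [hKK _ (hb ?_)]
    · exact hK s t hs1 ht1
    · rw [mem_ball, dist_eq_norm, add_sub_cancel_left, norm_mul, he, one_mul]
      calc ‖(s + t * Complex.I : ℂ)‖ ≤ ‖(s : ℂ)‖ + ‖(t * Complex.I : ℂ)‖ := norm_add_le _ _
        _ = |s| + |t| := by simp
        _ < ε := by linarith

theorem mf_star_congr {K K' U : Set ℂ} (hU : IsOpen U) (hKK : ∀ z ∈ U, (z ∈ K' ↔ z ∈ K)) {q : ℂ}
    (hq : q ∈ U) {n : ℕ} {δ : ℝ} {σ : Fin n → ℝ → ℂ} (h : IsStar K q n δ σ) :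
    ∃ δ' : ℝ, δ' ≤ δ ∧ IsStar K' q n δ' σ := by
  obtain ⟨ε, hε, hb⟩ := Metric.isOpen_iff.1 hU q hq
  have hd := h.pos
  have h1 : min δ ε ≤ δ := min_le_left _ _
  have h2 : min δ ε ≤ ε := min_le_right _ _
  refine ⟨min δ ε, h1, ?_⟩
  have hUz : ∀ z : ℂ, ‖z - q‖ < min δ ε → z ∈ U := fun z hz =>
    hb (by rw [mem_ball, dist_eq_norm]; exact hz.trans_le h2)
  exact
    { pos := lt_min hd hε
      cont := fun k => (h.cont k).mono (Ioo_subset_Ioo le_rfl h1)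
      norm_sub := fun k s hs => h.norm_sub k s ⟨hs.1, hs.2.trans_le h1⟩
      inj := fun k l s hs hkl => h.inj k l s ⟨hs.1, hs.2.trans_le h1⟩ hkl
      mem_iff := fun z hz0 hz => by
        rw [hKK z (hUz z hz)]
        exact h.mem_iff z hz0 (hz.trans_le h1)
      reg := fun z hzK hz0 hz => by
        have hzU := hUz z hz
        exact mf_reg_congr hU hKK hzU (h.reg z ((hKK z hzU).1 hzK) hz0 (hz.trans_le h1)) }

theorem mf_tip_congr {K K' U : Set ℂ} (hU : IsOpen U) (hKK : ∀ z ∈ U, (z ∈ K' ↔ z ∈ K)) {q : ℂ}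
    (hq : q ∈ U) (h : IsTip K q) : IsTip K' q := by
  obtain ⟨δ, σ, hs⟩ := h
  obtain ⟨δ', -, hs'⟩ := mf_star_congr hU hKK hq hs
  exact ⟨δ', σ, hs'⟩

theorem mf_triple_congr {K K' U : Set ℂ} (hU : IsOpen U) (hKK : ∀ z ∈ U, (z ∈ K' ↔ z ∈ K)) {q : ℂ}
    (hq : q ∈ U) (h : IsTriple K q) : IsTriple K' q := by
  obtain ⟨δ, σ, τ, hs, h1, h2⟩ := h
  obtain ⟨δ', -, hs'⟩ := mf_star_congr hU hKK hq hs
  exact ⟨δ', σ, τ, hs', h1, h2⟩

end Pool.Agent.MP099f24
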