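import Mathlib
import Pool.Agent.Lib.MP_099f24_an.MF.Class
import Pool.Agent.Lib.MP_099f24_an.MF.Local
import Pool.Agent.Lib.MP_099f24_an.RG.Blow
import Pool.Agent.Lib.MP_099f24_an.RG.Local
import Pool.Agent.Lib.MP_099f24_an.ST.Emb
import Pool.Agent.Lib.MP_099f24_an.NR.Main
import Pool.Agent.Lib.MP_099f24_an.SD.Rep

/-!
# Local structure of the discontinuity set of a local minimizer, and the no-region property
-/

set_option autoImplicit false

namespace Pool.Agent.MP099f24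

open MeasureTheory Filter Topology Set Metric
open scoped ENNReal ContDiff

/-- local structure, for `MSMin` -/
theorem mf_local {Ω : Set ℂ} {u : ℂ → ℝ} {g j : ℂ → ℂ} (h : MSMin Ω u g j) {p : ℂ} (hpΩ : p ∈ Ω)
    (hp : p ∈ closure (discSet Ω u)) :
    IsRegPt (closure (discSet Ω u)) p ∨ IsTip (closure (discSet Ω u)) p ∨
      IsTriple (closure (discSet Ω u)) p := by
  obtain ⟨r, hr, hb, u', hmin, hae⟩ := emb_ms h hpΩ
  exact rg_local h hpΩ hp (rg_blow h hr hb hae mf_class (b6_loc hr hmin ⟨mem_ball_self hr, hp⟩))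

/-- Local structure of the discontinuity set of a local minimizer. -/
theorem ms_local {Ω : Set ℂ} (hΩ : IsOpen Ω) {u : ℂ → ℝ} (hu : IsLocalMinimizer Ω u) :
    ∀ p ∈ Ω ∩ closure (discSet Ω u), IsRegPt (Ω ∩ closure (discSet Ω u)) p ∨
      IsTip (Ω ∩ closure (discSet Ω u)) p ∨ IsTriple (Ω ∩ closure (discSet Ω u)) p := by
  obtain ⟨u', g, j, h, -, hS, -⟩ := exists_MSMin hΩ hu
  rw [← hS]
  rintro p ⟨hpΩ, hp⟩
  have hKK : ∀ z ∈ Ω, (z ∈ Ω ∩ closure (discSet Ω u') ↔ z ∈ closure (discSet Ω u')) :=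
    fun z hz => ⟨fun h => h.2, fun h => ⟨hz, h⟩⟩
  rcases mf_local h hpΩ hp with h | h | h
  · exact Or.inl (mf_reg_congr hΩ hKK hpΩ h)
  · exact Or.inr (Or.inl (mf_tip_congr hΩ hKK hpΩ h))
  · exact Or.inr (Or.inr (mf_triple_congr hΩ hKK hpΩ h))

/-- The discontinuity set of a local minimizer bounds no region. -/
theorem ms_noregion {Ω : Set ℂ} (hΩ : IsOpen Ω) {u : ℂ → ℝ} (hu : IsLocalMinimizer Ω u) :
    NoRegion Ω (Ω ∩ closure (discSet Ω u)) := by
  obtain ⟨u', g, j, h, -, hS, -⟩ := exists_MSMin hΩ hu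
  rw [← hS]
  refine nr_main mf_class ?_ fun p hpΩ hp => mf_local h hpΩ hp
  intro C hC hCΩ
  obtain ⟨V, u₁, hV, hCV, hVΩ, hmin, -⟩ := emb_compact h hC hCΩ
  exact ⟨V, hCV, hVΩ, u₁, hmin V hV subset_rfl⟩

end Pool.Agent.MP099f24
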